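import Pool.Agent.H427R2.MU.All

set_option autoImplicit false

namespace Pool.Agent.Results.MP_ac065a_co.MultiLog

open Pool.Agent.Helper883.Dicut

/-- `h_μ(m) ≤ m/4 + O(m^(3/5) (log m)^(9/5))` for acyclic directed multigraphs. -/
theorem result : ∃ K : ℝ, 0 < K ∧ ∀ m : ℕ, 2 ≤ m →
    (hMulti m : ℝ) ≤ (m : ℝ) / 4 + K * (m : ℝ) ^ ((3 : ℝ) / 5) * Real.log m ^ ((9 : ℝ) / 5) :=
  Pool.Agent.H427R2.MU.MU_all

end Pool.Agent.Results.MP_ac065a_co.MultiLog
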