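import Pool.Agent.H427R2.SD.All

set_option autoImplicit false

namespace Pool.Agent.Results.MP_ac065a_co.SimpleLower

open Pool.Agent.Helper883.Dicut

/-- `h(m) ≥ m/4 + c m^(3/5 + 10^(-8))` for acyclic simple digraphs. -/
theorem result : ∃ c : ℝ, 0 < c ∧ ∀ m : ℕ, 1 ≤ m →
    (m : ℝ) / 4 + c * (m : ℝ) ^ ((3 : ℝ) / 5 + 1 / 10 ^ 8) ≤ hSimple m :=
  Pool.Agent.H427R2.SD.FIN_all.2

end Pool.Agent.Results.MP_ac065a_co.SimpleLower
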