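import Pool.Agent.H427R2.WX.All
import Pool.Agent.Helper883.Dicut.HMain

set_option autoImplicit false

namespace Pool.Agent.Results.MP_ac065a_co.WeightedOrder

open Pool.Agent.Helper883.Dicut

/-- The order of magnitude of `h_ω(t) - t/4` is exactly `t^(3/5)`. -/
theorem result : ∃ K : ℝ, 0 < K ∧ ∀ t : ℝ, 2 ≤ t →
    t / 4 + 1 / 32 * t ^ ((3 : ℝ) / 5) ≤ hWeighted t ∧
    hWeighted t ≤ t / 4 + K * t ^ ((3 : ℝ) / 5) := by
  obtain ⟨K, hK, h⟩ := Pool.Agent.H427R2.WX.X5_all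
  exact ⟨K, hK, fun t ht => ⟨(hWeighted_bounds t ht).1, h t (by linarith)⟩⟩

end Pool.Agent.Results.MP_ac065a_co.WeightedOrder
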